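import Pool.Agent.U841.SN.Top2

set_option autoImplicit false

/-! # The monodromy conjecture for local topological zeta functions of germs whose tangent cones
have normal crossings

Let `f t`, `t ∈ T`, be finitely many polynomials in `n ≥ 2` variables such that the tangent cones at the
origin of those hypersurfaces `f t = 0` which contain the origin are smooth away from the vertex and
cross normally there (`ConesCrossAt f 0`), let `a t ≥ 1` and `F = ∏ t, f t ^ a t`. The germ of `F` at the
origin is resolved by the blow-up of the origin (or by the identity, if the hypersurfaces cross
normally at the origin). All the poles of the local topological zeta function of `F` at the origin are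
roots of the local Bernstein-Sato polynomial of `F` at the origin; by the theorem of Malgrange and
Kashiwara, `exp(2 π i s₀)` is, for every pole `s₀`, an eigenvalue of the monodromy at a point near the
origin.

The roots are in the library `Pool/Agent/U841/SN` (helper841): `pt_exc` says that `-n/d` is a root of the
local Bernstein-Sato polynomial of `∏ t, f t ^ a t` at `p`, where `d` is its multiplicity at `p`, if the
hypersurfaces do not cross normally at `p`, for all exponents `a t ≥ 1`. See the files
`NormalCrossingTangentCones` of MP_504089_ag and MP_b07157_ag. This file draws the consequences for
the zeta functions of this problem. -/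

namespace Pool.Agent.Results.MP_aa7fc1_ag.NormalCrossingTangentCones

open MvPolynomial Pool.Agent.H628R4.TP Pool.Agent.TH192.DT Pool.Agent.U841.SN

/-- **The monodromy conjecture for the local topological zeta functions (with roots of the local
Bernstein-Sato polynomial), for germs of products of powers of polynomials whose tangent cones have
normal crossings.** Let `p` be a point and let `b` satisfy `b(s) F ^ s = P(s) F ^ (s + 1)`,
`F = ∏ t, f t ^ a t`, where `P(s)` is a differential operator whose coefficients are formal (for example
convergent) power series at `p` (in the coordinates `x - p`); for `p = 0`, `b` may be the local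
Bernstein-Sato polynomial of the germ of `F` at the origin. Then every pole of the local topological
zeta function of `F` at `p` (computed on the resolution by the blow-up of `p`, respectively by the
identity, with arbitrary integers in the place of the Euler characteristics; only components which
occur near the fibre over `p` contribute) is a root of `b`. -/
theorem result {n : ℕ} {T : Type} [Fintype T] (hn : 2 ≤ n) (f : T → MvPolynomial (Fin n) ℂ)
    (p : Fin n → ℂ) (hcone : ConesCrossAt f p) (a : T → ℕ) (ha : ∀ t, 0 < a t)
    (b : Polynomial ℂ) (hb : IsLocalBFunction (shiftP p (prodPow f a)) b)
    (χ : Finset (Option T) → ℤ) (hχ : ∀ J, χ J ≠ 0 → ∀ o ∈ J, OverP p f o) (s₀ : ℂ)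
    (hs : (topZ (nuB n T) (mulP p f a) χ).denom.eval s₀ = 0) : b.eval s₀ = 0 :=
  loc_top' hn ha p hcone b hb χ hχ s₀ hs

end Pool.Agent.Results.MP_aa7fc1_ag.NormalCrossingTangentCones
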