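import Pool.Agent.U184.Tor4

set_option autoImplicit false

/-! # The monodromy conjecture for the germs at the origin of homogeneous polynomials in three
variables with weighted homogeneous singularities

The germ at the origin of a homogeneous polynomial in three variables; its singularities are in
general not isolated. The local topological zeta function at the origin is equal to the global one,
since the strata which are not over the origin are fibred by `ℂ ^ *` (see `ConeZeta`), and a local
functional equation at the origin, even one with formal power series as coefficients, gives a
global one (`global_of_local` in `Pool.Agent.W574.MO.Homog`).

Let `f ≠ 0` be a homogeneous polynomial of degree `d > 0` in three variables, which may be reducible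
and non-reduced. The candidate poles of its zeta function come from the divisors over the points of
the plane projective curve `f = 0`, and from the exceptional divisor `P²` of the blow-up of the
origin, which gives the candidate `-3/d`. This file treats all poles `s₀ ≠` `-3/d`, and also `-3/d`, if
the curve `f = 0` has only weighted homogeneous singularities: at each singular point of the reduced
curve, `f` is, in suitable formal coordinates, a weighted homogeneous polynomial (`WHForm`). For
instance `f = ∏ f_i ^ (m_i)` with arbitrary multiplicities `m_i`, where the reduced curve
`∏ f_i = 0` has only simple singularities, ordinary multiple points of multiplicity at most 4,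
or other quasi-homogeneous singularities. There is no other condition: this file contains the
theorem `TernaryForms` (where the forms `f` such that `v(f) = f` for a linear vector field `v` of
trace zero were excluded for the value `-3/d`).

The proof for the value `-3/d` distinguishes two cases.

* There is no linear vector field `v` of trace zero with `v(f) = f` (`NoField`). Then `-3/d` is a root of
  `b` (`root_d3`): if `b(-3/d) ≠ 0` and the singularities are weighted homogeneous, then there is such
  a vector field `v` (`core` in `Pool.Agent.U184.Core`). The functional equation shows that on the
  complement of the curve the twisted form `f ^ (-3/d) (x dy dz - y dx dz + z dx dy)` is the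
  differential of a form with poles of some order along the curve. The order of the poles is
  lowered step by step. Locally at a weighted homogeneous singularity this is a computation with
  the Euler vector field; the functional equation at the points of the curve is used in order to
  treat the degrees in which the twisted Euler field has no inverse; the global step uses the
  exactness of the Koszul complex of `x, y, z`. At the end there is a form with poles of order one,
  which is given by a linear vector field `v` with `v(f) = f` and trace zero.
* There is such a vector field. Then `-3/d` need not be a root of `b` (for example `f = x^a y^b z^c`, or
  `f = x^5 + y^4 z`). We show that it is not a pole of `Z`, unless it is a root of `b` (`field_reg`).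
  By the Jordan decomposition of `v`, there are linear coordinates in which `f` is semi-invariant, with
  a nontrivial character, for a diagonal torus in `SL₃`, and then, after a permutation of the
  variables (`torus_shape`),
  `f = κ x^a y^b z^c ∏_t (x^p y^q - t z^(p+q))^(m_t)`, with `p, q ≥ 1` coprime or `(p, q) = (0, 1)`.
  By the localization formula, which is a part of the definition of the topological zeta function
  `TernTopZeta` used here, `Z = (z₀ + z₁ + z₂)/(d s + 3)` if `p, q ≥ 1`, where the `z_i` are the
  contributions of the coordinate points. The contributions of the germs
  `κ u^i v^j ∏_t (u^p - t v^r)^(m_t)` are computed by induction on `p + r` (`lz_main`); they do not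
  depend on the sequence of blow-ups (`LocalZeta.unique`). An identity (`val_iso`) then shows that
  `Z = ((p+q) z₀ + p z₂)/(ν + N s)`, where `ν = 2p + q`, `N = (p+q) a + p c + p (p+q) ∑ m_t`, and
  `-ν/N ≠ -3/d` since the character is not trivial. If `b(-3/d) ≠ 0`, then `z₀` and `z₂` are regular at
  `-3/d` by the results on plane curves of the library, so that `Z` is regular. In the same way
  `Z = z₀/(1 + a s)` if `(p, q) = (0, 1)` (`line_reg`).

The other poles are treated with the library (`cone_main`): a functional equation of `f` gives
functional equations of the `f |_{x_i = 1}`, and the contributions of the points of the plane are
regular at `s₀` if `b(s₀) ≠ 0`. -/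

namespace Pool.Agent.Results.MP_aa7fc1_ag.TernaryFormsComplete

open MvPolynomial Pool.Agent.U184 Pool.Agent.W574.MO Pool.Agent.H628R4.TP

/-- **The monodromy conjecture (local topological zeta functions) for the germs at the origin of
forms in three variables with weighted homogeneous singularities.** Let `f ≠ 0` be a homogeneous
polynomial of degree `d > 0` in three variables, and let `Z` be the local topological zeta function of
`f` at the origin (`TernTopZeta`). Let `s₀` be a pole of `Z`; if `s₀ = -3/d`, we assume here that the
plane curve `f = 0` (possibly not reduced) has only weighted homogeneous singularities
(`WHForm f d`). Then `s₀` is a root of every polynomial `b` which satisfies a functional equation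
`b(s) f ^ s = P(s) f ^ (s + 1)` with a differential operator `P(s)` with formal power series
coefficients at the origin, in particular of the Bernstein-Sato polynomial of the germ of `f` at the
origin. -/
theorem result (f : MvPolynomial (Fin 3) ℂ) (d : ℕ) (hd : 0 < d) (hf : f.IsHomogeneous d)
    (hf0 : f ≠ 0) (Z : RatFunc ℂ) (hZ : TernTopZeta f d Z) (s₀ : ℂ)
    (hs₀ : Z.denom.eval s₀ = 0) (hc : s₀ ≠ -3 / d ∨ WHForm f d) :
    ∀ b : Polynomial ℂ, IsLocalBFunction f b → b.eval s₀ = 0 :=
  fun b hb => top_full f d hd hf hf0 b (global_of_local f hf0 d hf b hb) Z hZ s₀ hs₀ hc

end Pool.Agent.Results.MP_aa7fc1_ag.TernaryFormsComplete
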